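import Pool.Agent.J6H29.ST.Stm
import Pool.Agent.R401.Tr8

/-!
# ST-INT: integrality
-/

set_option autoImplicit false
set_option maxHeartbeats 400000

namespace Pool.Agent.J6H74.ST.Int

open Polynomial Matrix

theorem exists_dvd {Ω : Type} [Field Ω] (s : Multiset Ω) (h : ∀ z ∈ s, IsIntegral ℤ z) :
    ∃ q : ℤ[X], q.Monic ∧ (s.map fun z => X - C z).prod ∣ q.map (algebraMap ℤ Ω) := by
  induction s using Multiset.induction with
  | empty => exact ⟨1, monic_one, by simp⟩
  | cons z s ih =>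
    obtain ⟨q, hq, hqd⟩ := ih fun x hx => h x (Multiset.mem_cons_of_mem hx)
    obtain ⟨p, hp, hpz⟩ := h z (Multiset.mem_cons_self z s)
    refine ⟨p * q, hp.mul hq, ?_⟩
    rw [Multiset.map_cons, Multiset.prod_cons, Polynomial.map_mul]
    refine mul_dvd_mul ?_ hqd
    rw [Polynomial.dvd_iff_isRoot, Polynomial.IsRoot, Polynomial.eval_map]
    exact hpz

theorem isIntegral_root {Ω : Type} [Field Ω] {m : ℕ} {B : Matrix (Fin m) (Fin m) Ω} {p : ℤ[X]}
    (hp : p.Monic) (hB : aeval B p = 0) {z : Ω} (hz : B.charpoly.IsRoot z) : IsIntegral ℤ z := by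
  have h1 : z ∈ spectrum Ω B := Matrix.mem_spectrum_iff_isRoot_charpoly.2 hz
  have hnt : Nontrivial (Matrix (Fin m) (Fin m) Ω) := by
    by_contra hnt
    rw [not_nontrivial_iff_subsingleton] at hnt
    apply h1
    exact isUnit_of_subsingleton _
  have h2 := spectrum.subset_polynomial_aeval B (p.map (algebraMap ℤ Ω)) ⟨z, h1, rfl⟩
  have h3 : aeval B (p.map (algebraMap ℤ Ω)) = 0 := by
    rw [Polynomial.aeval_map_algebraMap, hB]
  rw [h3, spectrum.zero_eq, Set.mem_singleton_iff] at h2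
  refine ⟨p, hp, ?_⟩
  rw [← Polynomial.eval_map]
  exact h2

theorem closed_case {Ω : Type} [Field Ω] [IsAlgClosed Ω] [CharZero Ω] {n m : ℕ}
    (A : Matrix (Fin n) (Fin n) Ω) (R : Matrix (Fin m) (Fin m) Ω) (M : ℕ) (hM : 0 < M) (D : ℤ)
    (htr : ∀ k : ℕ, (A ^ (M * k)).trace - (R ^ (M * k)).trace = (D : Ω) ^ k * ((n : Ω) - m))
    (hR : IsIntegral ℤ R) : IsIntegral ℤ A := by
  have hblock : ∀ (a b : ℕ) (A : Matrix (Fin a) (Fin a) Ω) (B : Matrix (Fin b) (Fin b) Ω) (k : ℕ),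
      ((fromBlocks A 0 0 B) ^ k).trace = (A ^ k).trace + (B ^ k).trace := by
    intro a b A B k
    rw [fromBlocks_diagonal_pow]
    simp [Matrix.trace, Fintype.sum_sum_type]
  have h1 : (fromBlocks (A ^ M) 0 0 ((D : Ω) • (1 : Matrix (Fin m) (Fin m) Ω))).charpoly =
      (fromBlocks ((D : Ω) • (1 : Matrix (Fin n) (Fin n) Ω)) 0 0 (R ^ M)).charpoly := by
    apply Pool.Agent.TH658.Eq.charpoly_eq_of_traces
    intro k
    rw [hblock, hblock, ← pow_mul, ← pow_mul, _root_.smul_pow, _root_.smul_pow, one_pow, one_pow,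
      Matrix.trace_smul, Matrix.trace_smul, Matrix.trace_one, Matrix.trace_one, Fintype.card_fin,
      Fintype.card_fin, smul_eq_mul, smul_eq_mul]
    linear_combination htr k
  rw [charpoly_fromBlocks_zero₁₂, charpoly_fromBlocks_zero₁₂] at h1
  obtain ⟨p, hp, hpR⟩ := hR.pow M
  have hpR' : aeval (R ^ M) p = 0 := hpR
  have hD : aeval ((D : Ω) • (1 : Matrix (Fin n) (Fin n) Ω)) (X - C D : ℤ[X]) = 0 := by
    rw [map_sub, aeval_X, aeval_C, sub_eq_zero, Algebra.algebraMap_eq_smul_one]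
    ext i j
    simp [Matrix.smul_apply]
  have hroot : ∀ z ∈ (A ^ M).charpoly.roots, IsIntegral ℤ z := by
    intro z hz
    have h3 : (A ^ M).charpoly.IsRoot z := (Polynomial.mem_roots'.1 hz).2
    have h4 : (((D : Ω) • (1 : Matrix (Fin n) (Fin n) Ω)).charpoly *
        (R ^ M).charpoly).IsRoot z := by
      rw [← h1]
      exact root_mul_right_of_isRoot _ h3
    rcases root_mul.1 h4 with h5 | h5
    · exact isIntegral_root (monic_X_sub_C D) hD h5
    · exact isIntegral_root hp hpR' h5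
  obtain ⟨q, hq, hqd⟩ := exists_dvd _ hroot
  have hsplit : (A ^ M).charpoly = ((A ^ M).charpoly.roots.map fun z => X - C z).prod :=
    (IsAlgClosed.splits _).eq_prod_roots_of_monic (A ^ M).charpoly_monic
  rw [← hsplit] at hqd
  obtain ⟨t, ht⟩ := hqd
  have h6 : aeval (A ^ M) q = 0 := by
    rw [← Polynomial.aeval_map_algebraMap Ω (A ^ M) q, ht, map_mul, Matrix.aeval_self_charpoly,
      zero_mul]
  exact IsIntegral.of_pow hM ⟨q, hq, h6⟩

theorem main : Pool.Agent.J6H29.ST.S_Int := by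
  intro ℓ hℓ n m A R M hM D htr hR
  let Ω := AlgebraicClosure ℚ_[ℓ]
  let F (a : ℕ) : Matrix (Fin a) (Fin a) ℚ_[ℓ] →ₐ[ℤ] Matrix (Fin a) (Fin a) Ω :=
    (Algebra.ofId ℚ_[ℓ] Ω).restrictScalars ℤ |>.mapMatrix
  have hF : ∀ (a : ℕ) (B : Matrix (Fin a) (Fin a) ℚ_[ℓ]),
      (F a B).trace = algebraMap ℚ_[ℓ] Ω B.trace := by
    intro a B
    simp only [Matrix.trace, map_sum]
    rfl
  have hinj : ∀ a : ℕ, Function.Injective (F a) := by
    intro a B B' h
    ext i j
    have h1 := congrFun (congrFun h i) j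
    exact (algebraMap ℚ_[ℓ] Ω).injective h1
  have hchar : CharZero Ω := charZero_of_injective_algebraMap (algebraMap ℚ_[ℓ] Ω).injective
  have hR' : IsIntegral ℤ (F m R) := (isIntegral_algHom_iff (F m) (hinj m)).2 hR
  have h1 := closed_case (F n A) (F m R) M hM D (fun k => by
    rw [← map_pow, ← map_pow, hF, hF, ← map_sub, htr k]
    simp) hR'
  exact (isIntegral_algHom_iff (F n) (hinj n)).1 h1

end Pool.Agent.J6H74.ST.Int
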